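import Mathlib
import Pool.Agent.Y928.PN.Pairs
import Pool.Agent.Results.MP_e47f08_nt.AlternativePolynomial

/-!
# The digits of `ζ(3)/π³` and `8 G - π⁵/(18 ζ(3)) ± (2/3) π²`

The linear complexity of the first `L` digits of a number `x` in base `b` is the least order of a
linear recurrence over `ℚ` which they satisfy; `x` is rational if and only if it is bounded for
`L → ∞`. Here `x 0 = ζ(3)/π³` and `x 1`, `x 2` are the numbers `8 G - π⁵/(18 ζ(3)) ± (2/3) π²`,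
`G` being Catalan's constant. At every large scale `L` at least two of these three numbers have
linear complexity at least `L / K`.
-/

set_option autoImplicit false

namespace Pool.Agent.Results.MP_e47f08_nt.DigitComplexity

open Finset

/-- the `i`-th digit of `x` after the point in base `b` -/
noncomputable def digit (b : ℕ) (x : ℝ) (i : ℕ) : ℤ := ⌊x * (b : ℝ) ^ i⌋ % (b : ℤ)

/-- The terms `s_1, …, s_L` satisfy the linear recurrence
`s_(i+m) = c_0 s_i + … + c_(m-1) s_(i+m-1)` for `1 ≤ i ≤ L - m`. -/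
def Recurrence (s : ℕ → ℤ) (c : ℕ → ℚ) (L m : ℕ) : Prop :=
  ∀ i : ℕ, 1 ≤ i → i + m ≤ L → (s (i + m) : ℚ) = ∑ j ∈ range m, c j * (s (i + j) : ℚ)

/-- the linear complexity of `s_1, …, s_L` -/
noncomputable def complexity (s : ℕ → ℤ) (L : ℕ) : ℕ :=
  sInf {m | ∃ c : ℕ → ℚ, Recurrence s c L m}

/-- the joint `k`-error linear complexity of the first `L` digits of the numbers `x i`, `i ∈ T`, in
base `b`: the least order of a common recurrence for the first `L` terms of sequences `s i` of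
integers between `-b` and `b` which agree with the digits of the numbers `x i` in all but at most
`k` of the places `1, …, L` -/
noncomputable def jointComplexity (b : ℕ) (T : Finset ℕ) (x : ℕ → ℝ) (k L : ℕ) : ℕ :=
  sInf {m | ∃ (s : ℕ → ℕ → ℤ) (c : ℕ → ℚ) (E : Finset ℕ), E.card ≤ k ∧ ∀ i ∈ T,
    (∀ l, |s i l| ≤ b) ∧ (∀ l ∈ Icc 1 L, l ∉ E → s i l = digit b (x i) l) ∧
    Recurrence (s i) c L m}

/-- the function `m + C √((m+1) log (m+2))` -/
noncomputable def F (C : ℝ) (m : ℕ) : ℝ :=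
  m + C * Real.sqrt (((m : ℝ) + 1) * Real.log ((m : ℝ) + 2))

/-- `ζ(3)` -/
noncomputable def zeta3 : ℝ := ∑' j : ℕ, 1 / ((j : ℝ) + 1) ^ 3

/-- Catalan's constant -/
noncomputable def G : ℝ := ∑' j : ℕ, (-1 : ℝ) ^ j / (2 * (j : ℝ) + 1) ^ 2

/-- `x 0 = ζ(3)/π³`, `x 1 = 8 G - π⁵/(18 ζ(3)) + (2/3) π²`, `x 2 = 8 G - π⁵/(18 ζ(3)) - (2/3) π²` -/
noncomputable def x (i : ℕ) : ℝ :=
  if i = 0 then zeta3 / Real.pi ^ 3
  else if i = 1 then 8 * G - Real.pi ^ 5 / (18 * zeta3) + 2 / 3 * Real.pi ^ 2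
  else 8 * G - Real.pi ^ 5 / (18 * zeta3) - 2 / 3 * Real.pi ^ 2

/-- **The digits of `ζ(3)/π³` and `8 G - π⁵/(18 ζ(3)) ± (2/3) π²`.** -/
theorem result : ∃ μ : ℝ, 4000 ≤ μ ∧
    -- every two of the three numbers
    (∀ h : ℕ, ∃ C : ℝ, 0 < C ∧ ∀ T : Finset ℕ, T ⊆ {0, 1, 2} → T.card = 2 →
      -- one recurrence for the digits of both numbers in base `b`, up to `k` errors
      (∀ b : ℕ, 2 ≤ b → ∀ k L : ℕ,
        (L : ℝ) ≤ (∑ i ∈ range (k + 1), ((if 0 ∈ T then 4000 else μ) : ℝ) ^ (i + 1)) *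
          F C (jointComplexity b T x k L)) ∧
      -- each number in its own base `b j`, by integer digits bounded by `(b j) ^ h`
      ∀ b : ℕ → ℕ, (∀ j ∈ T, 2 ≤ b j) → ∀ s : ℕ → ℕ → ℤ,
        (∀ j ∈ T, ∀ i, |s j i| ≤ ((b j ^ h : ℕ) : ℤ)) →
        (∀ j ∈ T, ∃ n : ℤ,
          HasSum (fun i : ℕ => (s j (i + 1) : ℝ) / (b j : ℝ) ^ (i + 1)) (x j - n)) →
        ∀ L : ℕ → ℕ, ∃ j ∈ T, (L j : ℝ) * Real.log (b j) ≤
          F C (complexity (s j) (L j)) * Real.log (b j) +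
            ((if 0 ∈ T then 4000 else μ) : ℝ) *
              ∑ i ∈ T, F C (complexity (s i) (L i)) * Real.log (b i)) ∧
    -- every large scale
    ∃ L₀ : ℕ, ∀ b : ℕ, 2 ≤ b → ∀ L : ℕ, L₀ ≤ L →
      (∀ T : Finset ℕ, T ⊆ {0, 1, 2} → T.card = 2 → 0 ∈ T →
        ∃ j ∈ T, (L : ℝ) ≤ 8001 * complexity (digit b (x j)) L) ∧
      2 ≤ (({0, 1, 2} : Finset ℕ).filter
        (fun j : ℕ => (L : ℝ) ≤ (2 * μ + 1) * complexity (digit b (x j)) L)).card := by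
  have hx : x 1 - x 2 = 4 / 3 * Real.pi ^ 2 := by
    simp only [x, one_ne_zero, if_false, if_true, OfNat.ofNat_ne_zero, OfNat.ofNat_ne_one]
    ring
  have key : ∀ ε : ℝ, (ε = 1 ∨ ε = -1) → ∃ c : ℝ, 0 < c ∧ ∀ q : ℕ, 1 ≤ q → ∀ s a : ℤ,
      c ≤ (q : ℝ) ^ ((4000 : ℝ) - 1) * max |(q : ℝ) * (zeta3 / Real.pi ^ 3) - s|
        |(q : ℝ) * (8 * G - Real.pi ^ 5 / (18 * zeta3) + ε * (2 / 3 * Real.pi ^ 2)) - a| := by
    intro ε hε
    obtain ⟨⟨c, hc, h1⟩, -⟩ := Pool.Agent.Results.MP_e47f08_nt.AlternativePolynomial.result ε hε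
    refine ⟨c, hc, fun q hq s a => ?_⟩
    have hq0 : (0 : ℝ) < q := by exact_mod_cast hq
    have h2 := h1 a s q q hq hq
    have e1 : (q : ℝ) ^ ((4000 : ℝ) - 1) = (q : ℝ) ^ 3999 := by
      rw [← Real.rpow_natCast]
      norm_num
    have e2 : ∀ (y : ℝ) (p : ℤ), |(q : ℝ) * y - p| = q * |y - (p : ℝ) / q| := by
      intro y p
      rw [← abs_of_pos hq0, ← abs_mul, abs_of_pos hq0]
      congr 1
      field_simp
    have h3 : c / ((q : ℝ) * q) ^ 2000 ≤ max |zeta3 / Real.pi ^ 3 - (s : ℝ) / (q : ℝ)|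
        |8 * G - Real.pi ^ 5 / (18 * zeta3) + ε * (2 / 3 * Real.pi ^ 2) - (a : ℝ) / (q : ℝ)| := h2
    rw [div_le_iff₀ (by positivity)] at h3
    rw [e1, e2, e2, ← mul_max_of_nonneg _ _ hq0.le]
    generalize max |zeta3 / Real.pi ^ 3 - (s : ℝ) / (q : ℝ)|
        |8 * G - Real.pi ^ 5 / (18 * zeta3) + ε * (2 / 3 * Real.pi ^ 2) - (a : ℝ) / (q : ℝ)| = M at h3
    calc c ≤ M * ((q : ℝ) * q) ^ 2000 := h3
      _ = (q : ℝ) ^ 3999 * (q * M) := by
        have e3 : ((q : ℝ) * q) ^ 2000 = (q : ℝ) ^ 3999 * q := by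
          rw [← pow_succ, ← sq, ← pow_mul]
        rw [e3]
        ring
  have hx0 : x 0 = zeta3 / Real.pi ^ 3 := by
    simp only [x, if_true]
  have hx1 : x 1 = 8 * G - Real.pi ^ 5 / (18 * zeta3) + 1 * (2 / 3 * Real.pi ^ 2) := by
    simp only [x, one_ne_zero, if_false, if_true, one_mul]
  have hx2 : x 2 = 8 * G - Real.pi ^ 5 / (18 * zeta3) + (-1) * (2 / 3 * Real.pi ^ 2) := by
    simp only [x, OfNat.ofNat_ne_zero, OfNat.ofNat_ne_one, if_false]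
    ring
  have h01 : ∃ c0 : ℝ, 0 < c0 ∧ Pool.Agent.Y928.PN.Ms {0, 1} x 4000 c0 := by
    obtain ⟨c, hc, h1⟩ := key 1 (Or.inl rfl)
    refine ⟨c, hc, fun q hq p => ?_⟩
    have h2 := h1 q hq (p 0) (p 1)
    rw [← hx0, ← hx1] at h2
    rcases max_choice |(q : ℝ) * x 0 - p 0| |(q : ℝ) * x 1 - p 1| with h3 | h3
    · rw [h3] at h2
      exact ⟨0, by simp, h2⟩
    · rw [h3] at h2
      exact ⟨1, by simp, h2⟩
  have h02 : ∃ c0 : ℝ, 0 < c0 ∧ Pool.Agent.Y928.PN.Ms {0, 2} x 4000 c0 := by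
    obtain ⟨c, hc, h1⟩ := key (-1) (Or.inr rfl)
    refine ⟨c, hc, fun q hq p => ?_⟩
    have h2 := h1 q hq (p 0) (p 2)
    rw [← hx0, ← hx2] at h2
    rcases max_choice |(q : ℝ) * x 0 - p 0| |(q : ℝ) * x 2 - p 2| with h3 | h3
    · rw [h3] at h2
      exact ⟨0, by simp, h2⟩
    · rw [h3] at h2
      exact ⟨2, by simp, h2⟩
  exact Pool.Agent.Y928.PN.three x hx h01 h02

end Pool.Agent.Results.MP_e47f08_nt.DigitComplexity
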