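import Pool.Agent.Results.MP_e47f08_nt.ShiftedZetaValues
import Pool.Agent.Y854.GM.FamV

/-!
# Powers of `π` and zeta values at all rational points with height in windows

The height `H(s)` of a rational number is the maximum of `|numerator|` and denominator. Let `v ≥ 1` be a sequence with
exponent of convergence at most `τ` (for `v_j = j ^ q` this is `1 / q`, for `v_j = q ^ j` or `j!` it is `0`) and `θ < 1`. Let
`β_1, …, β_h > 0` be multiplicatively independent modulo the rational numbers (for instance `h = 1`, `β_1 = π`),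
`a_1, …, a_r` distinct real numbers, `L` a compact set without the points `1 - a_i`, `ξ_1, …, ξ_g` complex constants. For all
`α > 0` outside a set of Hausdorff dimension at most `τ / (1 - θ)` and all `w`, `d`, `A` there is `B` such that for all but
finitely many `j` and ALL rational numbers `s` in `L` with `|H(s) - α v_j| ≤ v_j ^ θ` the numbers `β_l ^ s`,
`ζ^(k)(s + a_i)`, `k < w`, satisfy no relation, up to `H(s) ^ (-B)` times one of its nonzero coefficients, of degree at most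
`d` in each of them with coefficients `∑ ξ_i c_i`, `c_i` integers, `|c_i| ≤ H(s) ^ A`.
-/

set_option autoImplicit false

open Filter Topology NumberField
open scoped ENNReal

namespace Pool.Agent.Results.MP_e47f08_nt.ZetaWindows

open ShiftedZetaValues (Points values Exceptional)

/-- the exponent of convergence of the sequence `v` is at most `τ` -/
def ExpLe (v : ℕ → ℝ) (τ : ℝ) : Prop := ∀ t : ℝ, τ < t → Summable (fun n : ℕ => (v n) ^ (-t))

/-- the height of a rational number -/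
def height (x : ℚ) : ℕ := max x.num.natAbs x.den

lemma pow_aux {A B B' n N : ℝ} (hA : 0 ≤ A) (hB : B ≤ B') (hB' : 0 ≤ B') (hn : 1 ≤ n) (hnN : n ≤ N)
    (hN : N ≤ n ^ 2) : n ^ A ≤ N ^ A ∧ n ^ (-(2 * B')) ≤ N ^ (-B) := by
  have hN1 : 1 ≤ N := hn.trans hnN
  refine ⟨Real.rpow_le_rpow (by linarith) hnN hA, ?_⟩
  calc n ^ (-(2 * B')) = (n ^ 2) ^ (-B') := by
        rw [← Real.rpow_natCast, ← Real.rpow_mul (by linarith)]
        congr 1
        push_cast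
        ring
    _ ≤ N ^ (-B') := Real.rpow_le_rpow_of_nonpos (by linarith) hN (by linarith)
    _ ≤ N ^ (-B) := Real.rpow_le_rpow_of_exponent_le hN1 (by linarith)

lemma exceptional_mono {h r : ℕ} (β : Fin h → ℝ) (a : Fin r → ℝ) (w d : ℕ) {g : ℕ} (ξ : Fin g → ℂ) (L : Set ℂ) (A : ℕ)
    (B B' n N : ℝ) (x : Fin 1 → ℚ) (hB : B ≤ B') (hB' : 0 ≤ B') (hn : 1 ≤ n) (hnN : n ≤ N) (hN : N ≤ n ^ 2)
    (hx : x ∈ Exceptional β a w 1 d ℚ (algebraMap ℚ ℂ) ξ L (A : ℝ) (2 * B') n) :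
    x ∈ Exceptional β a w 1 d ℚ (algebraMap ℚ ℂ) ξ L (A : ℝ) B N := by
  obtain ⟨e1, e2⟩ := pow_aux (Nat.cast_nonneg A) hB hB' hn hnN hN
  obtain ⟨h0, P, h1, h2, s₀, h3, h4⟩ := hx
  refine ⟨fun j => ?_, P, h1, fun s => ?_, s₀, h3, h4.trans (mul_le_mul_of_nonneg_right e2 (norm_nonneg _))⟩
  · obtain ⟨h5, p, q, h6, h7, h8⟩ := h0 j
    exact ⟨h5, p, q, h6, fun φ => ⟨(h7 φ).1.trans hnN, (h7 φ).2.trans hnN⟩, h8⟩
  · obtain ⟨c, h5, h6⟩ := h2 s
    exact ⟨c, fun i φ => (h5 i φ).trans e1, h6⟩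

lemma mem_points (x : ℚ) (L : Set ℂ) (hx : (x : ℂ) ∈ L) : x ∈ Points ℚ (algebraMap ℚ ℂ) L (height x) := by
  refine ⟨by simpa using hx, (x.num : 𝓞 ℚ), (x.den : 𝓞 ℚ), ?_, fun φ => ⟨?_, ?_⟩, ?_⟩
  · exact_mod_cast x.den_ne_zero
  · have h1 : φ ((x.num : 𝓞 ℚ) : ℚ) = (x.num : ℂ) := by simp
    rw [h1, Complex.norm_intCast, ← Int.cast_abs, ← Nat.cast_natAbs]
    exact_mod_cast le_max_left _ _
  · have h1 : φ ((x.den : 𝓞 ℚ) : ℚ) = (x.den : ℂ) := by simp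
    rw [h1, Complex.norm_natCast]
    exact_mod_cast le_max_right _ _
  · have h1 : (((x.num : 𝓞 ℚ) : ℚ)) = (x.num : ℚ) := by simp
    have h2 : (((x.den : 𝓞 ℚ) : ℚ)) = (x.den : ℚ) := by simp
    rw [h1, h2, Rat.num_div_den]

/-- **Theorem.** Let `v ≥ 1` be a sequence of exponent of convergence at most `τ ≥ 0`, `θ < 1`, `β_1, …, β_h > 0` such that
`∏ β_l ^ v_l` is irrational for all nonzero `v ∈ ℤ^h`, `a_1, …, a_r` distinct real numbers, `L` a compact set which contains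
no `1 - a_i`, and `ξ_1, …, ξ_g` complex numbers. There is a set `E` of Hausdorff dimension at most `τ / (1 - θ)` such that
for each `α > 0` outside `E` and all `w`, `d`, `A` there are `B` and `j₀` such that for all `j ≥ j₀` and ALL rational numbers
`s` in `L` with `|H(s) - α v_j| ≤ v_j ^ θ`: every polynomial `P` of degree at most `d` in each variable with coefficients
`∑ ξ_i c_i`, `c_i` integers with `|c_i| ≤ H(s) ^ A`, has at the numbers `β_l ^ s`, `ζ^(k)(s + a_i)` (`k < w`) a value larger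
than `H(s) ^ (-B)` times each of its coefficients which is not zero. The sequences `v_j = (j + 1) ^ q` and `v_j = q ^ j` have
exponent of convergence at most `1 / q` and `0`. -/
theorem result :
    (∀ (v : ℕ → ℝ) (τ θ : ℝ), (∀ n, 1 ≤ v n) → 0 ≤ τ → ExpLe v τ → θ < 1 →
      ∀ (h r : ℕ) (β : Fin h → ℝ), (∀ l, 0 < β l) → (∀ v : Fin h → ℤ, (∃ x : ℚ, ∏ l, β l ^ v l = x) → v = 0) →
      ∀ a : Fin r → ℝ, Function.Injective a → ∀ L : Set ℂ, IsCompact L → (∀ s ∈ L, ∀ i, s + a i ≠ 1) →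
      ∀ (g : ℕ) (ξ : Fin g → ℂ),
      ∃ E : Set ℝ, dimH E ≤ ENNReal.ofReal (τ / (1 - θ)) ∧ ∀ α : ℝ, 0 < α → α ∉ E → ∀ w d A : ℕ,
        ∃ (B : ℝ) (j₀ : ℕ), ∀ j : ℕ, j₀ ≤ j → ∀ s : ℚ, (s : ℂ) ∈ L → |(height s : ℝ) - α * v j| ≤ (v j) ^ θ →
          ∀ P : MvPolynomial (Fin 1 × (Fin h ⊕ (Fin r × Fin w))) ℂ, (∀ z, P.degreeOf z ≤ d) →
            (∀ u, ∃ c : Fin g → ℤ, (∀ i, |((c i : ℤ) : ℝ)| ≤ (height s : ℝ) ^ A) ∧ P.coeff u = ∑ i, ξ i * c i) →
            ∀ u₀, P.coeff u₀ ≠ 0 → (height s : ℝ) ^ (-B) * ‖P.coeff u₀‖ <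
              ‖MvPolynomial.aeval (fun z : Fin 1 × (Fin h ⊕ (Fin r × Fin w)) => values β a w (s : ℂ) z.2) P‖) ∧
    (∀ q : ℝ, 0 < q → ExpLe (fun n : ℕ => ((n : ℝ) + 1) ^ q) (1 / q)) ∧
    (∀ q : ℝ, 1 < q → ExpLe (fun n : ℕ => q ^ n) 0) := by
  refine ⟨fun v τ θ hv hτ hE hθ1 h r β hβ0 hβ a ha L hL hL' g ξ => ?_,
    fun κ hκ => Pool.Agent.Y854.GM.expLe_pow κ hκ, fun κ hκ => Pool.Agent.Y854.GM.expLe_geom κ hκ⟩
  have hall : ∀ c : ℕ × ℕ × ℕ, _ := fun c => Pool.Agent.Y854.GM.fam_windows_from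
    (fun x : Fin 1 → ℚ => (height (x 0) : ℝ))
    (fun B N => Exceptional β a c.1 1 c.2.1 ℚ (algebraMap ℚ ℂ) ξ L (c.2.2 : ℝ) B N)
    (fun ε hε => by
      obtain ⟨B, C, T₀, h'⟩ := ShiftedZetaValues.result β hβ0 hβ a ha c.1 1 1 g c.2.1 L hL hL' (c.2.2 : ℝ) ε hε
      refine ⟨B, C, T₀, fun N hN => ?_⟩
      obtain ⟨h1, h2⟩ := h' ℚ (by simp) (algebraMap ℚ ℂ) ξ N hN
      refine ⟨h1, h2.trans (le_of_eq ?_)⟩
      rw [Nat.sub_self, pow_zero, mul_one])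
    (fun B B' n N x hB hB' hn hnN hN hx => exceptional_mono β a c.1 c.2.1 ξ L c.2.2 B B' n N x hB hB' hn hnN hN hx)
    hv hτ hE hθ1
  choose E hE1 hE2 using hall
  refine ⟨⋃ c, E c, ?_, fun α hα hαE w d A => ?_⟩
  · rw [dimH_iUnion]
    exact iSup_le hE1
  · rw [Set.mem_iUnion] at hαE
    push Not at hαE
    obtain ⟨B, j₀, hj⟩ := hE2 (w, d, A) α hα (hαE (w, d, A))
    refine ⟨B, j₀, fun j hj1 s hs hw P hPd hPc u₀ hu₀ => ?_⟩
    by_contra hcon
    rw [not_lt] at hcon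
    refine hj j hj1 (fun _ => s) hw ⟨fun _ => mem_points s L hs, P, hPd, fun u => ?_, u₀, hu₀, hcon⟩
    obtain ⟨c, h1, h2⟩ := hPc u
    refine ⟨fun i => (c i : 𝓞 ℚ), fun i φ => ?_, ?_⟩
    · have h3 : φ (((c i : 𝓞 ℚ)) : ℚ) = (c i : ℂ) := by simp
      rw [h3, Complex.norm_intCast, Real.rpow_natCast]
      exact h1 i
    · rw [h2]
      simp

end Pool.Agent.Results.MP_e47f08_nt.ZetaWindows
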